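import Pool.Agent.helper71.EP.SpecE
import Pool.Agent.helper47.RA.Num

set_option autoImplicit false

open Finset
open scoped Real
open Pool.Agent.helper74.TG

noncomputable section

namespace Pool.Agent.EP

theorem EFI_mono (a b : ℕ) (h : a ≤ b) : sO a ≤ sO b := by
  unfold sO
  apply Finset.card_le_card
  intro n hn
  rw [Finset.mem_filter, Finset.mem_range] at hn ⊢
  exact ⟨by omega, hn.2⟩

theorem EFI_log (c ε : ℝ) (hc : 0 < c) (hε : 0 < ε) :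
    ∀ᶠ x : ℝ in Filter.atTop, 16 / c * Real.log x ^ 2 ≤ x ^ (3 * ε / 4) := by
  have h1 : 0 < 3 * ε / 8 := by positivity
  have h2 := isLittleO_log_rpow_atTop h1
  have hδ : 0 < √(c / 16) := Real.sqrt_pos.2 (by positivity)
  have h3 := h2.def hδ
  filter_upwards [h3, Filter.eventually_ge_atTop 1] with x hx hx1
  rw [Real.norm_eq_abs, Real.norm_eq_abs] at hx
  have hp : 0 ≤ x ^ (3 * ε / 8) := by positivity
  rw [abs_of_nonneg hp, abs_of_nonneg (Real.log_nonneg hx1)] at hx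
  have h4 : Real.log x ^ 2 ≤ (√(c / 16) * x ^ (3 * ε / 8)) ^ 2 :=
    pow_le_pow_left₀ (Real.log_nonneg hx1) hx 2
  have h5 : (x ^ (3 * ε / 8)) ^ 2 = x ^ (3 * ε / 4) := by
    rw [← Real.rpow_natCast, ← Real.rpow_mul (by linarith)]
    congr 1
    push_cast
    ring
  rw [mul_pow, Real.sq_sqrt (by positivity), h5] at h4
  calc 16 / c * Real.log x ^ 2 ≤ 16 / c * (c / 16 * x ^ (3 * ε / 4)) := by gcongr
    _ = x ^ (3 * ε / 4) := by field_simp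

theorem EFI (hECP : ECP_stmt) (hEBC : EBC_stmt) : EFI_stmt := by
  intro ε hε
  obtain ⟨c, hc, U₀, hU⟩ := hECP
  obtain ⟨C, hC1, hC⟩ := Pool.Agent.helper47.RA.card_divisors_le (ε / 16) (by positivity)
  have e1 : ∀ᶠ x : ℝ in Filter.atTop, C * (24 : ℝ) ^ (ε / 16) ≤ x ^ (ε / 16) :=
    (tendsto_rpow_atTop (by positivity)).eventually_ge_atTop _
  have e2 : ∀ᶠ x : ℝ in Filter.atTop, (U₀ : ℝ) + 3 ≤ x ^ (1 / 4 : ℝ) :=
    (tendsto_rpow_atTop (by norm_num)).eventually_ge_atTop _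
  have e3 := EFI_log c ε hc hε
  have e4 := ((e1.and e2).and e3).and (Filter.eventually_ge_atTop (1 : ℝ))
  have e5 := (tendsto_natCast_atTop_atTop (R := ℝ)).eventually e4
  obtain ⟨X₀, hX₀⟩ := Filter.eventually_atTop.1 e5
  refine ⟨X₀, fun X hX => ?_⟩
  obtain ⟨⟨⟨h1, h2⟩, h3⟩, h4⟩ := hX₀ X hX
  set x : ℝ := (X : ℝ) with hx
  have hx0 : 0 < x := by linarith
  set U : ℕ := ⌊x ^ (1 / 4 : ℝ)⌋₊ with hUdef
  have hq0 : 0 ≤ x ^ (1 / 4 : ℝ) := by positivity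
  have hU0 : (0 : ℝ) ≤ (U₀ : ℝ) := Nat.cast_nonneg _
  have hUle : (U : ℝ) ≤ x ^ (1 / 4 : ℝ) := Nat.floor_le hq0
  have hUge : x ^ (1 / 4 : ℝ) - 1 ≤ (U : ℝ) := by
    have := Nat.lt_floor_add_one (x ^ (1 / 4 : ℝ))
    rw [← hUdef] at this
    linarith
  have hUhalf : x ^ (1 / 4 : ℝ) / 2 ≤ (U : ℝ) := by linarith
  have hUU : U₀ ≤ U := by
    have : (U₀ : ℝ) ≤ U := by linarith
    exact_mod_cast this
  have hU2 : (2 : ℝ) ≤ U := by linarith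
  have h44 : (x ^ (1 / 4 : ℝ)) ^ 4 = x := by
    rw [← Real.rpow_natCast, ← Real.rpow_mul hx0.le]
    norm_num
  have hU4r : (U : ℝ) ^ 4 ≤ x := by
    calc (U : ℝ) ^ 4 ≤ (x ^ (1 / 4 : ℝ)) ^ 4 := pow_le_pow_left₀ (by positivity) hUle 4
      _ = x := h44
  have hU4 : U ^ 4 ≤ X := by
    have : ((U ^ 4 : ℕ) : ℝ) ≤ (X : ℝ) := by push_cast; exact hU4r
    exact_mod_cast this
  have hUx : (U : ℝ) ≤ x := by
    have : (U : ℝ) ≤ (U : ℝ) ^ 4 := le_self_pow₀ (by linarith) (by norm_num)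
    linarith
  set D : ℕ := ⌊x ^ (ε / 8)⌋₊ with hD
  have hdiv : ∀ k : ℕ, 0 < k → k ≤ 24 * U ^ 4 → #k.divisors ≤ D := by
    intro k hk hk2
    rw [hD]
    apply Nat.le_floor
    have hk3 : (k : ℝ) ≤ 24 * x := by
      have : (k : ℝ) ≤ 24 * (U : ℝ) ^ 4 := by exact_mod_cast hk2
      linarith
    calc ((#k.divisors : ℕ) : ℝ) ≤ C * (k : ℝ) ^ (ε / 16) := hC k hk
      _ ≤ C * (24 * x) ^ (ε / 16) := by gcongr
      _ = (C * (24 : ℝ) ^ (ε / 16)) * x ^ (ε / 16) := by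
          rw [Real.mul_rpow (by norm_num) hx0.le]; ring
      _ ≤ x ^ (ε / 16) * x ^ (ε / 16) := by gcongr
      _ = x ^ (ε / 8) := by
          rw [← Real.rpow_add hx0]
          congr 1
          ring
  have hB := hEBC U D hdiv
  have hB2 : #(Pq U) ≤ 2 * D ^ 2 * sO X :=
    hB.trans (Nat.mul_le_mul_left _ (EFI_mono _ _ hU4))
  have hB3 : (#(Pq U) : ℝ) ≤ 2 * (D : ℝ) ^ 2 * (sO X : ℝ) := by exact_mod_cast hB2
  have hDle : (D : ℝ) ≤ x ^ (ε / 8) := Nat.floor_le (by positivity)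
  have hD2 : (D : ℝ) ^ 2 ≤ x ^ (ε / 4) := by
    calc (D : ℝ) ^ 2 ≤ (x ^ (ε / 8)) ^ 2 := pow_le_pow_left₀ (by positivity) hDle 2
      _ = x ^ (ε / 4) := by
          rw [← Real.rpow_natCast, ← Real.rpow_mul hx0.le]
          congr 1
          push_cast
          ring
  have hP := hU U hUU
  have hlogU : 0 < Real.log U := Real.log_pos (by linarith)
  have hlogle : Real.log U ≤ Real.log x := Real.log_le_log (by linarith) hUx
  have hlog2 : Real.log U ^ 2 ≤ Real.log x ^ 2 := pow_le_pow_left₀ hlogU.le hlogle 2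
  have hlogx : 0 < Real.log x := by linarith
  rw [div_le_iff₀ (by positivity)] at hP
  have hs0 : (0 : ℝ) ≤ (sO X : ℝ) := Nat.cast_nonneg _
  -- main chain
  have hU3 : x ^ (3 / 4 : ℝ) / 8 ≤ (U : ℝ) ^ 3 := by
    have h6 : (x ^ (1 / 4 : ℝ)) ^ 3 = x ^ (3 / 4 : ℝ) := by
      rw [← Real.rpow_natCast, ← Real.rpow_mul hx0.le]
      norm_num
    calc x ^ (3 / 4 : ℝ) / 8 = (x ^ (1 / 4 : ℝ) / 2) ^ 3 := by rw [div_pow, h6]; norm_num
      _ ≤ (U : ℝ) ^ 3 := pow_le_pow_left₀ (by positivity) hUhalf 3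
  have hchain : c * (x ^ (3 / 4 : ℝ) / 8) ≤ 2 * x ^ (ε / 4) * (sO X : ℝ) * Real.log x ^ 2 := by
    calc c * (x ^ (3 / 4 : ℝ) / 8) ≤ c * (U : ℝ) ^ 3 := by gcongr
      _ ≤ (#(Pq U) : ℝ) * Real.log U ^ 2 := hP
      _ ≤ (2 * (D : ℝ) ^ 2 * (sO X : ℝ)) * Real.log x ^ 2 := by gcongr
      _ ≤ (2 * x ^ (ε / 4) * (sO X : ℝ)) * Real.log x ^ 2 := by gcongr
  have hkey : (2 * x ^ (ε / 4) * Real.log x ^ 2) * x ^ (3 / 4 - ε) ≤ c * (x ^ (3 / 4 : ℝ) / 8) := by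
    have h7 : Real.log x ^ 2 ≤ c / 16 * x ^ (3 * ε / 4) := by
      have h8 : c / 16 * (16 / c * Real.log x ^ 2) ≤ c / 16 * x ^ (3 * ε / 4) := by gcongr
      have h9 : c / 16 * (16 / c * Real.log x ^ 2) = Real.log x ^ 2 := by field_simp
      rwa [h9] at h8
    have h10 : x ^ (ε / 4) * x ^ (3 * ε / 4) * x ^ (3 / 4 - ε) = x ^ (3 / 4 : ℝ) := by
      rw [← Real.rpow_add hx0, ← Real.rpow_add hx0]
      congr 1
      ring
    calc (2 * x ^ (ε / 4) * Real.log x ^ 2) * x ^ (3 / 4 - ε)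
        ≤ (2 * x ^ (ε / 4) * (c / 16 * x ^ (3 * ε / 4))) * x ^ (3 / 4 - ε) := by gcongr
      _ = c / 8 * (x ^ (ε / 4) * x ^ (3 * ε / 4) * x ^ (3 / 4 - ε)) := by ring
      _ = c * (x ^ (3 / 4 : ℝ) / 8) := by rw [h10]; ring
  have hpos : 0 < 2 * x ^ (ε / 4) * Real.log x ^ 2 := by positivity
  have hfin : (2 * x ^ (ε / 4) * Real.log x ^ 2) * x ^ (3 / 4 - ε) ≤
      (2 * x ^ (ε / 4) * Real.log x ^ 2) * (sO X : ℝ) := by
    refine hkey.trans (hchain.trans (le_of_eq ?_))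
    ring
  exact le_of_mul_le_mul_left hfin hpos

end Pool.Agent.EP
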